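import Pool.Agent.H7.TRI.Stmts

set_option autoImplicit false

open Finset

namespace Pool.TRI

theorem ETB_thm : ETBStmt := by
  intro V _ _ G d m hG v w hvw
  have hwv : w ∈ nb G v := mem_nb.2 hvw
  have hvw' : v ∈ nb G w := mem_nb.2 hvw.symm
  have h1 : nb G v ∩ nb G w ⊆ (nb G v).erase w := by
    intro z hz
    rw [mem_inter] at hz
    refine mem_erase.2 ⟨?_, hz.1⟩
    rintro rfl
    exact self_notMem_nb _ hz.2
  have h2 : nb G v ∩ nb G w ⊆ (nb G w).erase v := by
    intro z hz
    rw [mem_inter] at hz
    refine mem_erase.2 ⟨?_, hz.2⟩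
    rintro rfl
    exact self_notMem_nb _ hz.1
  have e1 : ((nb G v).erase w).card + 1 = (nb G v).card := card_erase_add_one hwv
  have e2 : ((nb G w).erase v).card + 1 = (nb G w).card := card_erase_add_one hvw'
  have c1 : cd G v w ≤ ((nb G v).erase w).card := card_le_card h1
  have c2 : cd G v w ≤ ((nb G w).erase v).card := card_le_card h2
  have dv := hG.deg v
  have dw := hG.deg w
  have hs : cd G v w = cd G w v := by
    unfold cd
    rw [inter_comm]
  refine ⟨?_, ?_, ?_, ?_⟩
  · unfold et
    omega
  · unfold et
    omega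
  · unfold et
    rw [hs]
  · intro h
    unfold et at h
    have f1 : nb G v ∩ nb G w = (nb G v).erase w := by
      refine eq_of_subset_of_card_le h1 ?_
      have : cd G v w = (nb G v ∩ nb G w).card := rfl
      omega
    have f2 : nb G v ∩ nb G w = (nb G w).erase v := by
      refine eq_of_subset_of_card_le h2 ?_
      have : cd G v w = (nb G v ∩ nb G w).card := rfl
      omega
    have g1 : cn G v = insert v (insert w (nb G v ∩ nb G w)) := by
      rw [f1, insert_erase hwv]
      rfl
    have g2 : cn G w = insert w (insert v (nb G v ∩ nb G w)) := by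
      rw [f2, insert_erase hvw']
      rfl
    rw [g1, g2, insert_comm]

end Pool.TRI
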